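import Pool.Agent.Run7.h630.MQ.Iface

/-!
Loops based at different points of the same line are conjugate, and the traces of the products of the
vector field with powers of the loop.
-/

set_option autoImplicit false

open Matrix
open scoped Matrix.Norms.Frobenius ComplexConjugate

namespace Run7.h370.MQ

open Run7.h4.YM Run7.h630.ML Run7.h630.MQ

variable {N n L l : ℕ}

theorem l_dir2 [NeZero l] (x : Site n L l) : x + l • (dir 2 : Site n L l) = x := by
  have h : l • (dir 2 : Site n L l) = 0 := by
    simp only [dir, cons_val]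
    ext <;> simp
  rw [h, add_zero]

theorem lp_step [NeZero l] (U : Link n L l → SU N) (x : Site n L l) :
    lp U x * U (2, x) = U (2, x) * lp U (x + dir 2) := by
  have h1 : lp U x * U (2, x) = ((List.range (l + 1)).map fun t : ℕ => U (2, x + t • dir 2)).prod := by
    rw [List.prod_range_succ, l_dir2]
    rfl
  have h2 : U (2, x) * lp U (x + dir 2) =
      ((List.range (l + 1)).map fun t : ℕ => U (2, x + t • dir 2)).prod := by
    rw [List.prod_range_succ', zero_smul, add_zero]
    congr 1
    unfold Run7.h630.MQ.lp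
    congr 2
    funext t
    rw [Nat.succ_eq_add_one, add_smul, one_smul, add_assoc, add_comm (dir 2)]
  rw [h1, h2]

/-- the loops at the points of a line are conjugate -/
theorem lp_conj [NeZero l] (U : Link n L l → SU N) (x : Site n L l) (t : ℕ) :
    ∃ h : SU N, lp U (x + t • dir 2) = h⁻¹ * lp U x * h := by
  induction t with
  | zero => exact ⟨1, by simp⟩
  | succ t ih =>
    obtain ⟨h, hh⟩ := ih
    refine ⟨h * U (2, x + t • dir 2), ?_⟩
    have h1 := lp_step U (x + t • dir 2)
    rw [hh] at h1
    have h2 : x + (t + 1) • dir 2 = x + t • dir 2 + (dir 2 : Site n L l) := by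
      rw [add_smul, one_smul, add_assoc]
    rw [h2, _root_.mul_inv_rev]
    have h3 : lp U (x + t • dir 2 + dir 2) =
        (U (2, x + t • dir 2))⁻¹ * (U (2, x + t • dir 2) * lp U (x + t • dir 2 + dir 2)) := by
      rw [inv_mul_cancel_left]
    rw [h3, ← h1]
    group

theorem trace_conj (h z : SU N) : trace (h⁻¹ * z * h).1 = trace z.1 := by
  have h1 : (h⁻¹ * z * h).1 = (h⁻¹).1 * z.1 * h.1 := rfl
  have h2 : h.1 * (h⁻¹).1 = 1 := congrArg Subtype.val (mul_inv_cancel h)
  rw [h1, trace_mul_cycle, h2, one_mul]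

theorem val_pow (g : SU N) (a b : ℕ) : (g ^ a).1 * (g ^ b).1 = (g ^ (b + a)).1 := by
  rw [add_comm, pow_add]
  rfl

theorem val_star (g : SU N) : g.1ᴴ = (g⁻¹).1 := rfl

theorem trace_inv (g : SU N) : trace (g⁻¹).1 = conj (trace g.1) := by
  rw [← val_star, trace_conjTranspose]
  rfl

/-- the trace of the product of the vector field and a power of the loop -/
theorem tr_pr [NeZero N] (g : SU N) (a : ℂ) (i j : ℕ) :
    trace (pr (a • (g ^ j).1) * (g ^ i).1) =
      1 / 2 * (a * trace (g ^ (i + j)).1 - conj a * trace ((g ^ j)⁻¹ * g ^ i).1) -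
        (a * trace (g ^ j).1 - conj (a * trace (g ^ j).1)) / (2 * N) * trace (g ^ i).1 := by
  have h1 : ((g ^ j).1)ᴴ * (g ^ i).1 = ((g ^ j)⁻¹ * g ^ i).1 := rfl
  have h2 : trace ((g ^ j).1)ᴴ = conj (trace (g ^ j).1) := trace_conjTranspose _
  unfold pr
  rw [conjTranspose_smul, sub_mul, smul_mul_assoc, smul_mul_assoc, one_mul, sub_mul, smul_mul_assoc,
    smul_mul_assoc, val_pow, h1, trace_sub, trace_smul, trace_sub, trace_smul, trace_smul,
    trace_smul, trace_sub, trace_smul, trace_smul, h2, map_mul]
  simp only [smul_eq_mul, RCLike.star_def]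
  try ring

end Run7.h370.MQ
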