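import Pool.Agent.Run7.h370.MQ.Mx

/-!
The contribution of a site and of a line to the derivative of the action.
-/

set_option autoImplicit false

open Matrix
open scoped Matrix.Norms.Frobenius ComplexConjugate

namespace Run7.h370.MQ

open Run7.h4.YM Run7.h630.ML Run7.h630.MQ

variable {N n L l : ℕ}

theorem norm_om (N k : ℕ) : ‖om N k‖ = 1 := by
  have h : (2 * Real.pi * Complex.I * (k / N) : ℂ) = ((2 * Real.pi * (k / N) : ℝ) : ℂ) * Complex.I := by
    push_cast
    ring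
  rw [om, h, Complex.norm_exp_ofReal_mul_I]

theorem norm_zt (N k : ℕ) (x : Site n L l) (d : Fin 4) : ‖zt N k x d‖ = 1 := by
  unfold zt
  split_ifs
  · exact norm_om N k
  · exact norm_one

theorem norm_Zt (N k : ℕ) (x : Site n L l) (d : Fin 4) : ‖Zt N k x d‖ = 1 := by
  unfold Zt
  split_ifs
  · exact norm_om N k
  · exact norm_one

theorem conj_zt (N k : ℕ) (x : Site n L l) (d : Fin 4) : conj (zt N k x d) * zt N k x d = 1 := by
  rw [Complex.conj_mul', norm_zt]
  simp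

theorem V_unit (k : ℕ) (U : Link n L l → SU N) (x : Site n L l) (d : Fin 4) :
    (conj (zt N k x d) • (plaq U x d 2).1) * (conj (zt N k x d) • (plaq U x d 2).1)ᴴ = 1 := by
  rw [conjTranspose_smul, smul_mul_assoc, mul_smul_comm, mul_star_self', smul_smul]
  have h : star (conj (zt N k x d)) = zt N k x d := Complex.conj_conj _
  rw [h, conj_zt, one_smul]

/-- the coefficient of the difference -/
noncomputable def bb (k : ℕ) (c : ℕ) (a : Site n L l → ℂ) (x : Site n L l) (d : Fin 4) : ℂ :=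
  a (x + dir d) * Zt N k x d ^ c - a x

/-- the term of the derivative of the action -/
noncomputable def tm (k : ℕ) (U : Link n L l → SU N) (K : Site n L l → Mt N) (x : Site n L l)
    (d : Fin 4) : ℝ :=
  (conj (zt N k x d) * trace ((U (d, x)).1 * K (x + dir d) * (U (d, x)).1ᴴ *
    (plaq U x d 2).1 - (plaq U x d 2).1 * K x)).re

theorem site_eq [NeZero N] (k : ℕ) (U : Link n L l → SU N) (x : Site n L l) (d : Fin 4) (c : ℕ)
    (a : Site n L l → ℂ) :
    conj (zt N k x d) * trace ((U (d, x)).1 * Yv c a U (x + dir d) * (U (d, x)).1ᴴ *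
      (plaq U x d 2).1 - (plaq U x d 2).1 * Yv c a U x) =
    trace (Fd k U x d * pr (a (x + dir d) • ((U (d, x)).1 * (lp U (x + dir d) ^ c).1 *
      (U (d, x)).1ᴴ - Zt N k x d ^ c • (lp U x ^ c).1))) +
    trace (Fd k U x d * pr (bb (N := N) k c a x d • (lp U x ^ c).1)) := by
  set X : Mt N := (U (d, x)).1 * Yv c a U (x + dir d) * (U (d, x)).1ᴴ with hX
  set Y : Mt N := Yv c a U x with hY
  have hX0 : trace X = 0 := by
    rw [hX, trace_cj]
    exact trace_pr _
  have hY0 : trace Y = 0 := trace_pr _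
  have h1 : pr (a (x + dir d) • ((U (d, x)).1 * (lp U (x + dir d) ^ c).1 *
      (U (d, x)).1ᴴ - Zt N k x d ^ c • (lp U x ^ c).1)) +
      pr (bb (N := N) k c a x d • (lp U x ^ c).1) = X - Y := by
    rw [← pr_add, hX, hY]
    unfold Yv
    rw [← pr_cj, ← pr_sub]
    congr 1
    rw [Matrix.mul_smul, Matrix.smul_mul, bb, smul_sub, sub_smul, smul_smul]
    abel
  rw [← trace_add, ← mul_add, h1]
  have h2 : Fd k U x d * (X - Y) = (conj (zt N k x d) • (plaq U x d 2).1) * X -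
      (conj (zt N k x d) • (plaq U x d 2).1) * Y - (X - Y) := by
    unfold Fd
    rw [sub_mul, one_mul, mul_sub]
  have h3 : trace (X - Y) = 0 := by rw [trace_sub, hX0, hY0, sub_zero]
  rw [h2, trace_sub (_ - _), trace_sub, trace_sub, h3, sub_zero, Matrix.smul_mul,
    Matrix.smul_mul, trace_smul, trace_smul, trace_mul_comm X, smul_eq_mul, smul_eq_mul,
    mul_sub]

theorem site_le [NeZero N] [NeZero n] [NeZero L] [NeZero l] (h1 : S_T1) (k : ℕ)
    (U : Link n L l → SU N) (x : Site n L l) {d : Fin 4} (hd : d ∈ D3) (c : ℕ)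
    (a : Site n L l → ℂ) :
    |tm k U (Yv c a U) x d - (bb (N := N) k c a x d * trace (Fd k U x d * (lp U x ^ c).1)).re| ≤
      2 * N * (‖Fd k U x d‖ * (‖a (x + dir d)‖ * (c * fr k U x d))) +
      (N ^ 2 / 2 * ‖Fd k U x d‖ ^ 2 * ‖bb (N := N) k c a x d‖ +
        ‖bb (N := N) k c a x d‖ * ‖W c U x‖ * ‖Fd k U x d‖) := by
  unfold tm
  rw [site_eq, Complex.add_re]
  have h2 := tr_pr_le (Fd k U x d) (a (x + dir d) • ((U (d, x)).1 * (lp U (x + dir d) ^ c).1 *
      (U (d, x)).1ᴴ - Zt N k x d ^ c • (lp U x ^ c).1))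
  have h3 : ‖a (x + dir d) • ((U (d, x)).1 * (lp U (x + dir d) ^ c).1 *
      (U (d, x)).1ᴴ - Zt N k x d ^ c • (lp U x ^ c).1)‖ ≤ ‖a (x + dir d)‖ * (c * fr k U x d) := by
    rw [norm_smul]
    exact mul_le_mul_of_nonneg_left (h1 N n L l k U x d hd c) (norm_nonneg _)
  have h4 : 2 * (N : ℝ) * (‖Fd k U x d‖ * ‖a (x + dir d) • ((U (d, x)).1 *
      (lp U (x + dir d) ^ c).1 * (U (d, x)).1ᴴ - Zt N k x d ^ c • (lp U x ^ c).1)‖) ≤
      2 * N * (‖Fd k U x d‖ * (‖a (x + dir d)‖ * (c * fr k U x d))) := by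
    gcongr
  have h5 := tr_pr_unit (conj (zt N k x d) • (plaq U x d 2).1) (V_unit k U x d)
    (bb (N := N) k c a x d) (lp U x ^ c)
  have h6 : |(trace (Fd k U x d * pr (bb (N := N) k c a x d • (lp U x ^ c).1))).re -
      (bb (N := N) k c a x d * trace (Fd k U x d * (lp U x ^ c).1)).re| ≤
      N ^ 2 / 2 * ‖Fd k U x d‖ ^ 2 * ‖bb (N := N) k c a x d‖ +
        ‖bb (N := N) k c a x d‖ * ‖W c U x‖ * ‖Fd k U x d‖ := h5
  rw [abs_le] at h2 h6 ⊢
  constructor <;> linarith [h2.1, h2.2, h6.1, h6.2]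

theorem fr_eq [NeZero l] (k : ℕ) (U : Link n L l → SU N) (x : Site n L l) (d : Fin 4) :
    fr k U x d = ∑ s : ZMod l, ‖Fd k U (x.1, x.2.1, s, x.2.2.2) d‖ := by
  unfold fr
  rw [← Equiv.sum_comp (Equiv.addLeft x.2.2.1) (fun s => ‖Fd k U (x.1, x.2.1, s, x.2.2.2) d‖),
    ← sum_range_zmod0]
  refine Finset.sum_congr rfl fun t _ => ?_
  rw [add_dir2]
  rfl

theorem fr_line [NeZero l] (k : ℕ) (U : Link n L l → SU N) (x : Site n L l) (d : Fin 4) (t : ℕ) :
    fr k U (x + t • dir 2) d = fr k U x d := by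
  rw [fr_eq, fr_eq, add_dir2]

theorem fr_nonneg (k : ℕ) (U : Link n L l → SU N) (x : Site n L l) (d : Fin 4) :
    0 ≤ fr k U x d := Finset.sum_nonneg fun _ _ => norm_nonneg _

theorem bb_line [NeZero l] (k c : ℕ) (j : ℕ × ℤ) (g : ZMod n × ZMod L → ℂ) (x : Site n L l)
    (d : Fin 4) (t : ℕ) :
    bb (N := N) k c (av N k j g) (x + t • dir 2) d = bb (N := N) k c (av N k j g) x d := by
  unfold bb
  have h1 : x + t • dir 2 + dir d = x + dir d + t • (dir 2 : Site n L l) := by abel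
  have h2 : Zt N k (x + t • dir 2) d = Zt N k x d := by
    rw [add_dir2]
    rfl
  rw [h1, av_line, av_line, h2]

/-- the error of a line -/
noncomputable def er (k c : ℕ) (U : Link n L l → SU N) (A B : ℝ) (x : Site n L l) (d : Fin 4) : ℝ :=
  2 * N * c ^ 2 * A * fr k U x d ^ 2 +
    c * N ^ 2 / 2 * B * ∑ t ∈ Finset.range l, ‖Fd k U (x + t • dir 2) d‖ ^ 2 +
    c * B * ‖W c U x‖ * fr k U x d + B * (c * (c + N) * fr k U x d ^ 2)

theorem line_le [NeZero N] [NeZero n] [NeZero L] [NeZero l] (h1 : S_T1) (h2 : S_T2) (k : ℕ)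
    (U : Link n L l → SU N) (x : Site n L l) {d : Fin 4} (hd : d ∈ D3) (c : ℕ) (j : ℕ × ℤ)
    (g : ZMod n × ZMod L → ℂ) :
    |c * ∑ t ∈ Finset.range l, tm k U (Yv c (av N k j g) U) (x + t • dir 2) d -
      (bb (N := N) k c (av N k j g) x d * (conj (Zt N k x d) ^ c * W c U (x + dir d) -
        W c U x)).re| ≤ er k c U ‖av N k j g (x + dir d)‖ ‖bb (N := N) k c (av N k j g) x d‖ x d := by
  set a := av (l := l) N k j g with ha
  set b := bb (N := N) k c a x d with hb
  have hc : (0 : ℝ) ≤ c := Nat.cast_nonneg _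
  have e1 : |∑ t ∈ Finset.range l, tm k U (Yv c a U) (x + t • dir 2) d -
      (b * ∑ t ∈ Finset.range l, trace (Fd k U (x + t • dir 2) d *
        (lp U (x + t • dir 2) ^ c).1)).re| ≤ 2 * N * c * ‖a (x + dir d)‖ * fr k U x d ^ 2 +
        N ^ 2 / 2 * ‖b‖ * ∑ t ∈ Finset.range l, ‖Fd k U (x + t • dir 2) d‖ ^ 2 +
        ‖b‖ * ‖W c U x‖ * fr k U x d := by
    rw [Finset.mul_sum, Complex.re_sum, ← Finset.sum_sub_distrib]
    refine (Finset.abs_sum_le_sum_abs _ _).trans ?_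
    have h3 : ∀ t ∈ Finset.range l, |tm k U (Yv c a U) (x + t • dir 2) d -
        (b * trace (Fd k U (x + t • dir 2) d * (lp U (x + t • dir 2) ^ c).1)).re| ≤
        2 * N * (‖Fd k U (x + t • dir 2) d‖ * (‖a (x + dir d)‖ * (c * fr k U x d))) +
        (N ^ 2 / 2 * ‖Fd k U (x + t • dir 2) d‖ ^ 2 * ‖b‖ +
          ‖b‖ * ‖W c U x‖ * ‖Fd k U (x + t • dir 2) d‖) := by
      intro t _
      have h4 := site_le h1 k U (x + t • dir 2) hd c a
      have h5 : x + t • dir 2 + dir d = x + dir d + t • (dir 2 : Site n L l) := by abel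
      rw [bb_line, W_line, fr_line, h5, ha, av_line] at h4
      exact h4
    refine (Finset.sum_le_sum h3).trans (le_of_eq ?_)
    rw [Finset.sum_add_distrib, Finset.sum_add_distrib, ← Finset.mul_sum, ← Finset.sum_mul,
      ← Finset.sum_mul, ← Finset.mul_sum, ← Finset.mul_sum]
    have h6 : ∑ t ∈ Finset.range l, ‖Fd k U (x + t • dir 2) d‖ = fr k U x d := rfl
    rw [h6]
    ring
  have e2 := h2 N n L l k U x d hd c
  have e3 : |(b * (conj (Zt N k x d) ^ c * W c U (x + dir d) - W c U x)).re -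
      c * (b * ∑ t ∈ Finset.range l, trace (Fd k U (x + t • dir 2) d *
        (lp U (x + t • dir 2) ^ c).1)).re| ≤ ‖b‖ * (c * (c + N) * fr k U x d ^ 2) := by
    have h3 : (b * (conj (Zt N k x d) ^ c * W c U (x + dir d) - W c U x)).re -
        c * (b * ∑ t ∈ Finset.range l, trace (Fd k U (x + t • dir 2) d *
        (lp U (x + t • dir 2) ^ c).1)).re = (b * (conj (Zt N k x d) ^ c * W c U (x + dir d) -
          W c U x - c * ∑ t ∈ Finset.range l, trace (Fd k U (x + t • dir 2) d *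
        (lp U (x + t • dir 2) ^ c).1))).re := by
      rw [mul_sub b _ (c * _), Complex.sub_re]
      congr 1
      rw [mul_left_comm, ← Complex.ofReal_natCast, Complex.re_ofReal_mul]
    rw [h3]
    refine (Complex.abs_re_le_norm _).trans ?_
    rw [norm_mul]
    exact mul_le_mul_of_nonneg_left e2 (norm_nonneg _)
  have e4 := mul_le_mul_of_nonneg_left e1 hc
  rw [← abs_of_nonneg hc, ← abs_mul, abs_of_nonneg hc, mul_sub] at e4
  unfold er
  rw [abs_le] at e3 e4 ⊢
  constructor <;> nlinarith [e3.1, e3.2, e4.1, e4.2]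

end Run7.h370.MQ
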