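import Pool.Agent.Run7.h370.MQ.St

/-!
Piece A: the derivative of the action along the vector field.
-/

set_option autoImplicit false

open Matrix
open scoped Matrix.Norms.Frobenius ComplexConjugate

namespace Run7.h370.MQ

open Run7.h4.YM Run7.h630.ML Run7.h630.MQ

variable {N n L l : ℕ}

/-- the base point of a line -/
def bp (u : ZMod n × ZMod L) (y : ZMod l) : Site n L l := (u.1, u.2, 0, y)

theorem sum_sites [NeZero n] [NeZero L] [NeZero l] {M : Type} [AddCommMonoid M]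
    (f : Site n L l → M) :
    ∑ x, f x = ∑ u : ZMod n × ZMod L, ∑ y : ZMod l, ∑ t ∈ Finset.range l,
      f (bp u y + t • dir 2) := by
  simp only [Fintype.sum_prod_type]
  refine Finset.sum_congr rfl fun a _ => Finset.sum_congr rfl fun b _ => ?_
  rw [Finset.sum_comm]
  refine Finset.sum_congr rfl fun y _ => ?_
  rw [← sum_range_zmod0]
  refine Finset.sum_congr rfl fun t _ => ?_
  rw [add_dir2]
  simp only [bp, zero_add]

/-- the shift of the base point -/
def eh : Fin 4 → ZMod n × ZMod L := ![(1, 0), (0, 1), (0, 0), (0, 0)]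

theorem bp_add0 (u : ZMod n × ZMod L) (y : ZMod l) :
    bp u y + dir 0 = bp (u + (1, 0)) y := by
  have h : (dir 0 : Site n L l) = (1, 0, 0, 0) := rfl
  rw [h]
  ext <;> simp [bp]

theorem bp_add1 (u : ZMod n × ZMod L) (y : ZMod l) :
    bp u y + dir 1 = bp (u + (0, 1)) y := by
  have h : (dir 1 : Site n L l) = (0, 1, 0, 0) := rfl
  rw [h]
  ext <;> simp [bp]

theorem bp_add3 (u : ZMod n × ZMod L) (y : ZMod l) :
    bp u y + dir 3 = bp u (y + 1) := by
  have h : (dir 3 : Site n L l) = (0, 0, 0, 1) := rfl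
  rw [h]
  ext <;> simp [bp]

theorem norm_ph (k : ℕ) (j : ℕ × ℤ) (y : ZMod l) : ‖ph N k j y‖ = 1 :=
  E_norm l (mass N k j) (y - 1).val

theorem exp_mass1 (N k : ℕ) [NeZero N] (j : ℕ × ℤ) :
    Complex.exp (Complex.I * (mass N k j : ℂ)) = om N k ^ j.1 := by
  have h := exp_mass N k (0, 0) j
  have h0 : mass N k (0, 0) = 0 := by simp [mass]
  rw [h0, zero_add, zero_add] at h
  exact h

/-- the phase step -/
noncomputable def st (N k l : ℕ) (j : ℕ × ℤ) : ℂ :=
  Complex.exp (Complex.I * ((mass N k j / l : ℝ) : ℂ))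

theorem ph_step [NeZero N] [NeZero l] (k : ℕ) (j : ℕ × ℤ) (x : Site n L l) :
    ph N k j (x.2.2.2 + 1) * Zt N k x 3 ^ j.1 = st N k l j * ph N k j x.2.2.2 := by
  set y := x.2.2.2 with hy
  have hl : (l : ℂ) ≠ 0 := Nat.cast_ne_zero.2 (NeZero.ne l)
  obtain ⟨t, ht, hyt⟩ : ∃ t : ℕ, t < l ∧ y = 1 + (t : ZMod l) :=
    ⟨(y - 1).val, ZMod.val_lt _, by rw [ZMod.natCast_zmod_val, add_sub_cancel]⟩
  have h1 : (y - 1).val = t := by
    rw [hyt, add_sub_cancel_left, ZMod.val_cast_of_lt ht]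
  have h2 : (y + 1 - 1).val = (t + 1) % l := by
    rw [add_sub_cancel_right, hyt, ← ZMod.val_natCast]
    congr 1
    push_cast
    ring
  unfold ph
  rw [h1, h2, st]
  by_cases h : t + 1 < l
  · have hy0 : y ≠ 0 := by
      intro h0
      have h3 : (y + 1 - 1).val = 0 := by rw [h0, zero_add, sub_self, ZMod.val_zero]
      rw [h2, Nat.mod_eq_of_lt h] at h3
      omega
    have hZ : Zt N k x 3 = 1 := by
      unfold Zt
      rw [if_neg]
      rintro ⟨-, h0⟩
      exact hy0 h0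
    rw [hZ, one_pow, mul_one, Nat.mod_eq_of_lt h, ← Complex.exp_add]
    congr 1
    push_cast
    ring
  · have h3 : t + 1 = l := by omega
    have hy0 : y = 0 := by
      rw [hyt, add_comm]
      have : ((t + 1 : ℕ) : ZMod l) = 0 := by rw [h3, ZMod.natCast_self]
      exact_mod_cast this
    have hZ : Zt N k x 3 = om N k := by
      unfold Zt
      rw [if_pos ⟨rfl, hy0⟩]
    rw [hZ, h3, Nat.mod_self, ← exp_mass1, ← Complex.exp_add, ← Complex.exp_add]
    congr 1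
    have h4 : (t : ℂ) = l - 1 := by
      rw [← h3]
      push_cast
      ring
    rw [h4]
    push_cast
    field_simp
    ring

theorem md_eq [NeZero l] (k : ℕ) (U : Link n L l → SU N) (j : ℕ × ℤ) (u : ZMod n × ZMod L) :
    md k U j u = ∑ y : ZMod l, ph N k j y * W j.1 U (bp u y) := by
  rw [← sum_range_zmod]
  unfold md
  refine Finset.sum_congr rfl fun t ht => ?_
  unfold ph
  rw [add_sub_cancel_left, ZMod.val_cast_of_lt (Finset.mem_range.1 ht)]
  rfl

theorem Zt_eq_one (N k : ℕ) (x : Site n L l) {d : Fin 4} (hd : d ≠ 3) : Zt N k x d = 1 := by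
  unfold Zt
  rw [if_neg fun h => hd h.1]

/-- the source term -/
noncomputable def so (k : ℕ) (U : Link n L l → SU N) (j : ℕ × ℤ) (g : ZMod n × ZMod L → ℂ)
    (x : Site n L l) (d : Fin 4) : ℂ :=
  bb (N := N) k j.1 (av N k j g) x d * (conj (Zt N k x d) ^ j.1 * W j.1 U (x + dir d) -
    W j.1 U x)

theorem so0 [NeZero l] (k : ℕ) (U : Link n L l → SU N) (j : ℕ × ℤ) (g : ZMod n × ZMod L → ℂ)
    (u : ZMod n × ZMod L) : ∑ y : ZMod l, so k U j g (bp u y) 0 =
      (g (u + (1, 0)) - g u) * (md k U j (u + (1, 0)) - md k U j u) := by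
  rw [md_eq, md_eq, ← Finset.sum_sub_distrib, Finset.mul_sum]
  refine Finset.sum_congr rfl fun y _ => ?_
  unfold so bb
  rw [Zt_eq_one N k _ (by decide), bp_add0, map_one, one_pow, mul_one, one_mul]
  unfold av
  simp only [bp]
  ring

theorem so1 [NeZero l] (k : ℕ) (U : Link n L l → SU N) (j : ℕ × ℤ) (g : ZMod n × ZMod L → ℂ)
    (u : ZMod n × ZMod L) : ∑ y : ZMod l, so k U j g (bp u y) 1 =
      (g (u + (0, 1)) - g u) * (md k U j (u + (0, 1)) - md k U j u) := by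
  rw [md_eq, md_eq, ← Finset.sum_sub_distrib, Finset.mul_sum]
  refine Finset.sum_congr rfl fun y _ => ?_
  unfold so bb
  rw [Zt_eq_one N k _ (by decide), bp_add1, map_one, one_pow, mul_one, one_mul]
  unfold av
  simp only [bp]
  ring

theorem conj_Zt (N k : ℕ) (x : Site n L l) (d : Fin 4) : conj (Zt N k x d) * Zt N k x d = 1 := by
  rw [Complex.conj_mul', norm_Zt]
  simp

theorem st_conj (N k l : ℕ) (j : ℕ × ℤ) : conj (st N k l j) * st N k l j = 1 := by
  rw [Complex.conj_mul', st, mul_comm Complex.I, Complex.norm_exp_ofReal_mul_I]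
  simp

theorem st_sum (N k l : ℕ) (j : ℕ × ℤ) :
    (st N k l j - 1) * (conj (st N k l j) - 1) =
      ((2 - 2 * Real.cos (mass N k j / l) : ℝ) : ℂ) := by
  have h1 : st N k l j + conj (st N k l j) = ((2 * Real.cos (mass N k j / l) : ℝ) : ℂ) := by
    rw [Complex.add_conj, st, mul_comm Complex.I, Complex.exp_ofReal_mul_I_re]
  have h2 := st_conj N k l j
  have h3 : (st N k l j - 1) * (conj (st N k l j) - 1) =
      conj (st N k l j) * st N k l j + 1 - (st N k l j + conj (st N k l j)) := by ring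
  rw [h3, h1, h2]
  push_cast
  ring

theorem so3 [NeZero N] [NeZero l] (k : ℕ) (U : Link n L l → SU N) (j : ℕ × ℤ)
    (g : ZMod n × ZMod L → ℂ) (u : ZMod n × ZMod L) : ∑ y : ZMod l, so k U j g (bp u y) 3 =
      ((2 - 2 * Real.cos (mass N k j / l) : ℝ) : ℂ) * g u * md k U j u := by
  set s := st N k l j with hs
  have h1 : ∀ y : ZMod l, so k U j g (bp u y) 3 =
      g u * (s - 1) * (conj s * (ph N k j (y + 1) * W j.1 U (bp u (y + 1)))) -
        g u * (s - 1) * (ph N k j y * W j.1 U (bp u y)) := by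
    intro y
    have h2 := ph_step (N := N) k j (bp (n := n) (L := L) u y)
    have h3 : (bp (n := n) (L := L) u y).2.2.2 = y := rfl
    rw [h3, ← hs] at h2
    have h4 : bb (N := N) k j.1 (av N k j g) (bp u y) 3 = g u * (s - 1) * ph N k j y := by
      unfold bb
      rw [bp_add3]
      have h5 : av N k j g (bp (l := l) u (y + 1)) = g u * ph N k j (y + 1) := rfl
      have h6 : av N k j g (bp (l := l) u y) = g u * ph N k j y := rfl
      rw [h5, h6, mul_assoc, h2]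
      ring
    have h7 : ph N k j y * conj (Zt N k (bp (n := n) (L := L) u y) 3) ^ j.1 =
        conj s * ph N k j (y + 1) := by
      have h8 : conj (Zt N k (bp (n := n) (L := L) u y) 3) ^ j.1 *
          Zt N k (bp (n := n) (L := L) u y) 3 ^ j.1 = 1 := by
        rw [← mul_pow, conj_Zt, one_pow]
      have h9 : conj s * s = 1 := st_conj N k l j
      calc ph N k j y * conj (Zt N k (bp (n := n) (L := L) u y) 3) ^ j.1
          = conj s * (s * ph N k j y) * conj (Zt N k (bp (n := n) (L := L) u y) 3) ^ j.1 := by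
            rw [← mul_assoc (conj s), h9, one_mul]
        _ = conj s * ph N k j (y + 1) * (conj (Zt N k (bp (n := n) (L := L) u y) 3) ^ j.1 *
          Zt N k (bp (n := n) (L := L) u y) 3 ^ j.1) := by
            rw [← h2]
            ring
        _ = conj s * ph N k j (y + 1) := by rw [h8, mul_one]
    unfold so
    rw [h4, bp_add3]
    calc g u * (s - 1) * ph N k j y * (conj (Zt N k (bp (n := n) (L := L) u y) 3) ^ j.1 *
          W j.1 U (bp u (y + 1)) - W j.1 U (bp u y))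
        = g u * (s - 1) * ((ph N k j y * conj (Zt N k (bp (n := n) (L := L) u y) 3) ^ j.1) *
          W j.1 U (bp u (y + 1))) - g u * (s - 1) * (ph N k j y * W j.1 U (bp u y)) := by ring
      _ = _ := by
        rw [h7]
        ring
  rw [Finset.sum_congr rfl fun y _ => h1 y, Finset.sum_sub_distrib, ← Finset.mul_sum,
    ← Finset.mul_sum, ← Finset.mul_sum]
  have h2 : ∑ y : ZMod l, ph N k j (y + 1) * W j.1 U (bp u (y + 1)) = md k U j u := by
    rw [md_eq]
    exact Equiv.sum_comp (Equiv.addRight (1 : ZMod l)) fun y => ph N k j y * W j.1 U (bp u y)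
  rw [h2, ← md_eq, ← st_sum, ← hs]
  ring

/-- summation by parts -/
theorem sbp {G : Type} [AddCommGroup G] [Fintype G] (g w : G → ℂ) (e : G) :
    ∑ u, (g (u + e) - g u) * (w (u + e) - w u) =
      ∑ u, (2 * g u - g (u + e) - g (u - e)) * w u := by
  have h1 : ∑ u, g (u + e) * w (u + e) = ∑ u, g u * w u :=
    Equiv.sum_comp (Equiv.addRight e) fun u => g u * w u
  have h2 : ∑ u, g u * w (u + e) = ∑ u, g (u - e) * w u := by
    rw [← Equiv.sum_comp (Equiv.addRight e) fun u => g (u - e) * w u]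
    refine Finset.sum_congr rfl fun u _ => ?_
    simp only [Equiv.coe_addRight, add_sub_cancel_right]
  have h3 : ∑ u, (g (u + e) - g u) * (w (u + e) - w u) =
      ∑ u, g (u + e) * w (u + e) - ∑ u, g (u + e) * w u - ∑ u, g u * w (u + e) +
        ∑ u, g u * w u := by
    rw [← Finset.sum_sub_distrib, ← Finset.sum_sub_distrib, ← Finset.sum_add_distrib]
    refine Finset.sum_congr rfl fun u _ => ?_
    ring
  rw [h3, h1, h2, ← Finset.sum_sub_distrib, ← Finset.sum_sub_distrib, ← Finset.sum_add_distrib]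
  refine Finset.sum_congr rfl fun u _ => ?_
  ring

theorem sum_D3 {M : Type} [AddCommMonoid M] (f : Fin 4 → M) : ∑ d ∈ D3, f d = f 0 + (f 1 + f 3) := by
  unfold D3
  rw [Finset.sum_insert (by decide), Finset.sum_insert (by decide), Finset.sum_singleton]

theorem source [NeZero N] [NeZero n] [NeZero L] [NeZero l] (k : ℕ) (U : Link n L l → SU N)
    (j : ℕ × ℤ) (g : ZMod n × ZMod L → ℂ) :
    ∑ d ∈ D3, ∑ u, ∑ y : ZMod l, so k U j g (bp u y) d =
      ∑ u, KK (2 - 2 * Real.cos (mass N k j / l)) g u * md k U j u := by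
  rw [sum_D3, Finset.sum_congr rfl fun u _ => so0 k U j g u, Finset.sum_congr rfl fun u _ =>
    so1 k U j g u, Finset.sum_congr rfl fun u _ => so3 k U j g u, sbp, sbp,
    ← Finset.sum_add_distrib, ← Finset.sum_add_distrib]
  refine Finset.sum_congr rfl fun u _ => ?_
  unfold KK
  ring

/-- the size of the coefficients -/
noncomputable def Gd (g : ZMod n × ZMod L → ℂ) (u : ZMod n × ZMod L) (d : Fin 4) : ℝ :=
  ‖g (u + eh d)‖ + ‖g u‖

theorem av_bp (k : ℕ) (j : ℕ × ℤ) (g : ZMod n × ZMod L → ℂ) (u : ZMod n × ZMod L) (y : ZMod l) :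
    ‖av N k j g (bp u y)‖ = ‖g u‖ := by
  have h : av N k j g (bp u y) = g u * ph N k j y := rfl
  rw [h, norm_mul, norm_ph, mul_one]

theorem av_bp_dir (k : ℕ) (j : ℕ × ℤ) (g : ZMod n × ZMod L → ℂ) (u : ZMod n × ZMod L)
    (y : ZMod l) {d : Fin 4} (hd : d ∈ D3) :
    ‖av N k j g (bp u y + dir d)‖ = ‖g (u + eh d)‖ := by
  unfold D3 at hd
  simp only [Finset.mem_insert, Finset.mem_singleton] at hd
  rcases hd with rfl | rfl | rfl
  · rw [bp_add0, av_bp]
    rfl
  · rw [bp_add1, av_bp]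
    rfl
  · rw [bp_add3, av_bp]
    have h : u + eh 3 = u := by
      have : (eh 3 : ZMod n × ZMod L) = 0 := rfl
      rw [this, add_zero]
    rw [h]

theorem bb_le (k c : ℕ) (j : ℕ × ℤ) (g : ZMod n × ZMod L → ℂ) (u : ZMod n × ZMod L)
    (y : ZMod l) {d : Fin 4} (hd : d ∈ D3) :
    ‖bb (N := N) k c (av N k j g) (bp u y) d‖ ≤ Gd g u d := by
  unfold bb Gd
  refine (norm_sub_le _ _).trans ?_
  rw [norm_mul, norm_pow, norm_Zt, one_pow, mul_one, av_bp_dir k j g u y hd, av_bp]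

theorem Te_nonneg [NeZero l] (k : ℕ) (U : Link n L l → SU N) (u : ZMod n × ZMod L) :
    0 ≤ Te k U u :=
  Finset.sum_nonneg fun _ _ => Finset.sum_nonneg fun _ _ => sq_nonneg _

theorem sum_sq_le [NeZero l] (k : ℕ) (U : Link n L l → SU N) (u : ZMod n × ZMod L) {d : Fin 4}
    (hd : d ∈ D3) : ∑ y : ZMod l, ∑ t ∈ Finset.range l, ‖Fd k U (bp u y + t • dir 2) d‖ ^ 2 ≤
      Te k U u := by
  have h1 : ∀ y : ZMod l, ∑ t ∈ Finset.range l, ‖Fd k U (bp u y + t • dir 2) d‖ ^ 2 =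
      ∑ s : ZMod l, ‖Fd k U (u.1, u.2, s, y) d‖ ^ 2 := by
    intro y
    rw [← sum_range_zmod0]
    refine Finset.sum_congr rfl fun t _ => ?_
    rw [add_dir2]
    simp only [bp, zero_add]
  rw [Finset.sum_congr rfl fun y _ => h1 y, ← Fintype.sum_prod_type_right
    (f := fun y : ZMod l × ZMod l => ‖Fd k U (u.1, u.2, y) d‖ ^ 2)]
  unfold Te
  refine Finset.sum_le_sum fun y _ => ?_
  exact Finset.single_le_sum (f := fun j => ‖Fd k U (u.1, u.2, y) j‖ ^ 2) (s := D3)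
    (fun j _ => sq_nonneg _) hd

theorem fr_sq_le (k : ℕ) (U : Link n L l → SU N) (x : Site n L l) (d : Fin 4) :
    fr k U x d ^ 2 ≤ l * ∑ t ∈ Finset.range l, ‖Fd k U (x + t • dir 2) d‖ ^ 2 := by
  have h := sq_sum_le_card_mul_sum_sq (s := Finset.range l)
    (f := fun t => ‖Fd k U (x + t • dir 2) d‖)
  rwa [Finset.card_range] at h

theorem sum_frsq_le [NeZero l] (k : ℕ) (U : Link n L l → SU N) (u : ZMod n × ZMod L) {d : Fin 4}
    (hd : d ∈ D3) : ∑ y : ZMod l, fr k U (bp u y) d ^ 2 ≤ l * Te k U u := by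
  refine (Finset.sum_le_sum fun y _ => fr_sq_le k U (bp u y) d).trans ?_
  rw [← Finset.mul_sum]
  exact mul_le_mul_of_nonneg_left (sum_sq_le k U u hd) (Nat.cast_nonneg _)

theorem sum_frd_le [NeZero l] (k : ℕ) (U : Link n L l → SU N) (u : ZMod n × ZMod L) {d : Fin 4}
    (hd : d ∈ D3) : ∑ y : ZMod l, fr k U (bp u y) d ≤ l * Real.sqrt (Te k U u) := by
  refine abs_le_of_sq_le_sq' ?_ (by positivity) |>.2
  have h := sq_sum_le_card_mul_sum_sq (s := (Finset.univ : Finset (ZMod l)))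
    (f := fun y => fr k U (bp u y) d)
  rw [Finset.card_univ, ZMod.card] at h
  rw [mul_pow, Real.sq_sqrt (Te_nonneg k U u)]
  refine h.trans ?_
  have h2 := mul_le_mul_of_nonneg_left (sum_frsq_le k U u hd) (Nat.cast_nonneg l)
  refine h2.trans (le_of_eq ?_)
  ring

theorem er_le {k c : ℕ} {U : Link n L l → SU N} {A B G w : ℝ} {x : Site n L l} {d : Fin 4}
    (hA : A ≤ G) (hB0 : 0 ≤ B) (hB : B ≤ G) (hW : ‖W c U x‖ ≤ w) :
    er k c U A B x d ≤ G * ((2 * N * c ^ 2 + c * (c + N)) * fr k U x d ^ 2 +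
      c * N ^ 2 / 2 * ∑ t ∈ Finset.range l, ‖Fd k U (x + t • dir 2) d‖ ^ 2 +
        c * w * fr k U x d) := by
  have hf := fr_nonneg k U x d
  have hw : 0 ≤ w := (norm_nonneg _).trans hW
  have hG : 0 ≤ G := hB0.trans hB
  have hS : 0 ≤ ∑ t ∈ Finset.range l, ‖Fd k U (x + t • dir 2) d‖ ^ 2 :=
    Finset.sum_nonneg fun _ _ => sq_nonneg _
  unfold er
  have h1 : 2 * (N : ℝ) * c ^ 2 * A * fr k U x d ^ 2 ≤ 2 * N * c ^ 2 * G * fr k U x d ^ 2 := by
    gcongr
  have h2 : (c : ℝ) * N ^ 2 / 2 * B * ∑ t ∈ Finset.range l, ‖Fd k U (x + t • dir 2) d‖ ^ 2 ≤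
      c * N ^ 2 / 2 * G * ∑ t ∈ Finset.range l, ‖Fd k U (x + t • dir 2) d‖ ^ 2 := by
    gcongr
  have h3 : (c : ℝ) * B * ‖W c U x‖ * fr k U x d ≤ c * G * w * fr k U x d := by
    gcongr
  have h4 : B * (c * (c + N) * fr k U x d ^ 2) ≤ G * (c * (c + N) * fr k U x d ^ 2) := by
    gcongr
  nlinarith [h1, h2, h3, h4]

theorem coef_le {N c l : ℝ} (hN : 2 ≤ N) (hc0 : 0 ≤ c) (hc : c ≤ N) (hl : 1 ≤ l) :
    (2 * N * c ^ 2 + c * (c + N)) * l + c * N ^ 2 / 2 + c * N ^ 3 * l ^ 2 ≤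
      3 * N ^ 4 * l ^ 2 := by
  have hN0 : 0 ≤ N := by linarith
  have hl0 : 0 ≤ l := by linarith
  have hll : l ≤ l ^ 2 := by nlinarith
  have h1l : 1 ≤ l ^ 2 := by nlinarith
  have h2 : (2 * N * c ^ 2 + c * (c + N)) * l ≤ (2 * N * N ^ 2 + N * (N + N)) * l ^ 2 := by
    gcongr
  have h3 : c * N ^ 2 / 2 ≤ N * N ^ 2 / 2 * l ^ 2 := by
    have : c * N ^ 2 / 2 ≤ N * N ^ 2 / 2 := by gcongr
    have h0 : 0 ≤ N * N ^ 2 / 2 := by positivity
    nlinarith
  have h4 : c * N ^ 3 * l ^ 2 ≤ N * N ^ 3 * l ^ 2 := by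
    gcongr
  have h5 : 2 * N * N ^ 2 + N * (N + N) + N * N ^ 2 / 2 ≤ 2 * N ^ 4 := by
    have e1 : 2 * N ^ 3 ≤ N ^ 4 := by nlinarith [pow_nonneg hN0 3]
    have e2 : 4 * N ^ 2 ≤ N ^ 4 := by nlinarith [pow_nonneg hN0 2, pow_nonneg hN0 3]
    nlinarith [e1, e2]
  nlinarith [h2, h3, h4, mul_le_mul_of_nonneg_right h5 (by positivity : (0 : ℝ) ≤ l ^ 2)]

theorem sum_er_le [NeZero N] [NeZero l] {k c : ℕ} {U : Link n L l → SU N} {u : ZMod n × ZMod L}
    {d : Fin 4} (hd : d ∈ D3) (hN : 2 ≤ N) (hc : c ≤ N) {G : ℝ} {A B : ZMod l → ℝ}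
    (hA : ∀ y, A y ≤ G) (hB0 : ∀ y, 0 ≤ B y) (hB : ∀ y, B y ≤ G)
    (hW : ∀ y : ZMod l, ‖W c U (bp u y)‖ ≤ N ^ 3 * (l * Real.sqrt (Te k U u))) :
    ∑ y, er k c U (A y) (B y) (bp u y) d ≤ G * (3 * N ^ 4 * l ^ 2 * Te k U u) := by
  have hG : 0 ≤ G := (hB0 0).trans (hB 0)
  set T := Te k U u with hT
  have hT0 : 0 ≤ T := Te_nonneg k U u
  refine (Finset.sum_le_sum fun y _ => er_le (hA y) (hB0 y) (hB y) (hW y)).trans ?_
  rw [← Finset.mul_sum]
  refine mul_le_mul_of_nonneg_left ?_ hG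
  rw [Finset.sum_add_distrib, Finset.sum_add_distrib, ← Finset.mul_sum, ← Finset.mul_sum,
    ← Finset.mul_sum]
  have h1 := mul_le_mul_of_nonneg_left (sum_frsq_le k U u hd)
    (by positivity : (0 : ℝ) ≤ 2 * N * c ^ 2 + c * (c + N))
  have h2 := mul_le_mul_of_nonneg_left (sum_sq_le k U u hd)
    (by positivity : (0 : ℝ) ≤ c * N ^ 2 / 2)
  have h3 := mul_le_mul_of_nonneg_left (sum_frd_le k U u hd)
    (by positivity : (0 : ℝ) ≤ c * (N ^ 3 * (l * Real.sqrt T)))
  have h4 : (c : ℝ) * (N ^ 3 * (l * Real.sqrt T)) * (l * Real.sqrt T) = c * N ^ 3 * l ^ 2 * T := by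
    have := Real.mul_self_sqrt hT0
    calc (c : ℝ) * (N ^ 3 * (l * Real.sqrt T)) * (l * Real.sqrt T)
        = c * N ^ 3 * l ^ 2 * (Real.sqrt T * Real.sqrt T) := by ring
      _ = _ := by rw [this]
  rw [← hT] at h1 h2 h3
  rw [h4] at h3
  have h5 := mul_le_mul_of_nonneg_right (coef_le (N := (N : ℝ)) (c := (c : ℝ)) (l := (l : ℝ))
    (by exact_mod_cast hN) (Nat.cast_nonneg _) (by exact_mod_cast hc)
    (by exact_mod_cast Nat.pos_of_neZero l)) hT0
  nlinarith [h1, h2, h3, h5]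

theorem dS_eq [NeZero n] [NeZero L] [NeZero l] (k : ℕ) (U : Link n L l → SU N)
    (K : Site n L l → Mt N) :
    dS k U K = -∑ d ∈ D3, ∑ u : ZMod n × ZMod L, ∑ y : ZMod l, ∑ t ∈ Finset.range l,
      tm k U K (bp u y + t • dir 2) d := by
  unfold dS
  congr 1
  rw [Finset.sum_comm]
  refine Finset.sum_congr rfl fun d _ => ?_
  exact sum_sites fun x => tm k U K x d

theorem t_A : S_T1 → S_T2 → S_T5 → S_A := by
  intro h1 h2 h5 N n L l k _ _ _ _ hco U j hj1 hjN g
  have hN2 : 2 ≤ N := by omega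
  have hW : ∀ (u : ZMod n × ZMod L) (y : ZMod l), ‖W j.1 U (bp u y)‖ ≤
      N ^ 3 * (l * Real.sqrt (Te k U u)) := by
    intro u y
    refine (h5 N n L l k hco U (bp u y) j.1 hj1 hjN).trans ?_
    exact mul_le_mul_of_nonneg_left (sum_fr_le k U u) (by positivity)
  have h3 : ∑ u, (KK (2 - 2 * Real.cos (mass N k j / l)) g u * md k U j u).re =
      ∑ d ∈ D3, ∑ u, ∑ y : ZMod l, (so k U j g (bp u y) d).re := by
    rw [← Complex.re_sum, ← source, Complex.re_sum]
    refine Finset.sum_congr rfl fun d _ => ?_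
    rw [Complex.re_sum]
    refine Finset.sum_congr rfl fun u _ => ?_
    rw [Complex.re_sum]
  have h4 : j.1 * dS k U (Yv j.1 (av N k j g) U) +
      ∑ u, (KK (2 - 2 * Real.cos (mass N k j / l)) g u * md k U j u).re =
      -∑ d ∈ D3, ∑ u : ZMod n × ZMod L, ∑ y : ZMod l, (j.1 * ∑ t ∈ Finset.range l,
        tm k U (Yv j.1 (av N k j g) U) (bp u y + t • dir 2) d - (so k U j g (bp u y) d).re) := by
    rw [h3, dS_eq]
    simp only [Finset.sum_sub_distrib, ← Finset.mul_sum]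
    ring
  rw [h4, abs_neg]
  have h6 : ∀ d ∈ D3, ∀ u : ZMod n × ZMod L, |∑ y : ZMod l, (j.1 * ∑ t ∈ Finset.range l,
        tm k U (Yv j.1 (av N k j g) U) (bp u y + t • dir 2) d - (so k U j g (bp u y) d).re)| ≤
      Gd g u d * (3 * N ^ 4 * l ^ 2 * Te k U u) := by
    intro d hd u
    refine (Finset.abs_sum_le_sum_abs _ _).trans ?_
    refine (Finset.sum_le_sum fun y _ => line_le h1 h2 k U (bp u y) hd j.1 j g).trans ?_
    refine sum_er_le hd hN2 hjN.le (fun y => ?_) (fun y => norm_nonneg _)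
      (fun y => bb_le k j.1 j g u y hd) (hW u)
    rw [av_bp_dir k j g u y hd]
    unfold Gd
    linarith [norm_nonneg (g u)]
  refine (Finset.abs_sum_le_sum_abs _ _).trans ?_
  have h7 : ∀ d ∈ D3, |∑ u : ZMod n × ZMod L, ∑ y : ZMod l, (j.1 * ∑ t ∈ Finset.range l,
        tm k U (Yv j.1 (av N k j g) U) (bp u y + t • dir 2) d - (so k U j g (bp u y) d).re)| ≤
      ∑ u, Gd g u d * (3 * N ^ 4 * l ^ 2 * Te k U u) := fun d hd =>
    (Finset.abs_sum_le_sum_abs _ _).trans (Finset.sum_le_sum fun u _ => h6 d hd u)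
  refine (Finset.sum_le_sum h7).trans (le_of_eq ?_)
  rw [Finset.sum_comm, Finset.mul_sum]
  refine Finset.sum_congr rfl fun u _ => ?_
  rw [sum_D3]
  have e0 : (eh 0 : ZMod n × ZMod L) = (1, 0) := rfl
  have e1 : (eh 1 : ZMod n × ZMod L) = (0, 1) := rfl
  have e3 : (eh 3 : ZMod n × ZMod L) = 0 := rfl
  unfold Gd
  rw [e0, e1, e3, add_zero]
  ring

end Run7.h370.MQ
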