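import Pool.Agent.Run7.h370.MQ.Cyc

/-!
Piece B: the derivative of the modes along the vector field.
-/

set_option autoImplicit false

open Matrix
open scoped Matrix.Norms.Frobenius ComplexConjugate

namespace Run7.h370.MQ

open Run7.h4.YM Run7.h630.ML Run7.h630.MQ

variable {N n L l : ℕ}

theorem norm_trace_le (g : SU N) : ‖trace g.1‖ ≤ N := by
  unfold trace
  refine (norm_sum_le _ _).trans ?_
  have h1 : ∀ i ∈ (Finset.univ : Finset (Fin N)), ‖diag g.1 i‖ ≤ 1 := fun i _ =>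
    entry_norm_bound_of_unitary (mem_specialUnitaryGroup_iff.1 g.2).1 i i
  refine (Finset.sum_le_sum h1).trans ?_
  simp

theorem norm_W_le (c : ℕ) (U : Link n L l → SU N) (x : Site n L l) : ‖W c U x‖ ≤ N :=
  norm_trace_le _

theorem pow_conj (h g : SU N) (m : ℕ) : (h⁻¹ * g * h) ^ m = h⁻¹ * g ^ m * h := by
  have := conj_pow (a := h⁻¹) (b := g) (i := m)
  rwa [inv_inv] at this

theorem trace_pow_conj (h g : SU N) (m : ℕ) :
    trace ((h⁻¹ * g * h) ^ m).1 = trace (g ^ m).1 := by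
  rw [pow_conj, trace_conj]

theorem trace_mix_conj (h g : SU N) (i j : ℕ) :
    trace (((h⁻¹ * g * h) ^ j)⁻¹ * (h⁻¹ * g * h) ^ i).1 = trace ((g ^ j)⁻¹ * g ^ i).1 := by
  rw [pow_conj, pow_conj, ← trace_conj h ((g ^ j)⁻¹ * g ^ i)]
  congr 2
  group

/-- the traces of the powers of the loop do not depend on the point of the line -/
theorem W_line [NeZero l] (c : ℕ) (U : Link n L l → SU N) (x : Site n L l) (t : ℕ) :
    W c U (x + t • dir 2) = W c U x := by
  obtain ⟨h, hh⟩ := lp_conj U x t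
  unfold W
  rw [hh, trace_pow_conj]

/-- the mixed trace -/
def Zm (i j : ℕ) (U : Link n L l → SU N) (x : Site n L l) : ℂ :=
  trace ((Run7.h630.MQ.lp U x ^ j)⁻¹ * Run7.h630.MQ.lp U x ^ i).1

theorem dir2_eq : (dir 2 : Site n L l) = (0, 0, 1, 0) := rfl

theorem add_dir2 (x : Site n L l) (t : ℕ) :
    x + t • dir 2 = (x.1, x.2.1, x.2.2.1 + (t : ZMod l), x.2.2.2) := by
  rw [dir2_eq]
  ext <;> simp

theorem av_line (k : ℕ) (j : ℕ × ℤ) (g : ZMod n × ZMod L → ℂ) (x : Site n L l) (t : ℕ) :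
    av N k j g (x + t • dir 2) = av N k j g x := by
  rw [add_dir2]
  rfl

theorem dW_Yv [NeZero N] [NeZero l] (k : ℕ) (U : Link n L l → SU N) (g : ZMod n × ZMod L → ℂ)
    (i : ℕ) (j : ℕ × ℤ) (x : Site n L l) :
    dW i U (Yv j.1 (av N k j g) U) x = i * (l * (1 / 2 * (av N k j g x * W (i + j.1) U x -
      conj (av N k j g x) * Zm i j.1 U x) - (av N k j g x * W j.1 U x -
        conj (av N k j g x * W j.1 U x)) / (2 * N) * W i U x)) := by
  unfold dW
  have h1 : ∀ t ∈ Finset.range l, trace (Yv j.1 (av N k j g) U (x + t • dir 2) *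
      (Run7.h630.MQ.lp U (x + t • dir 2) ^ i).1) = 1 / 2 * (av N k j g x * W (i + j.1) U x -
      conj (av N k j g x) * Zm i j.1 U x) - (av N k j g x * W j.1 U x -
        conj (av N k j g x * W j.1 U x)) / (2 * N) * W i U x := by
    intro t _
    obtain ⟨h, hh⟩ := lp_conj U x t
    unfold Yv
    rw [av_line, tr_pr, hh, trace_pow_conj, trace_pow_conj, trace_pow_conj, trace_mix_conj]
    rfl
  rw [Finset.sum_congr rfl h1, Finset.sum_const, Finset.card_range, nsmul_eq_mul]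

theorem sum_range_zmod [NeZero l] {M : Type} [AddCommMonoid M] (f : ZMod l → M) :
    ∑ t ∈ Finset.range l, f (1 + (t : ZMod l)) = ∑ y, f y := by
  refine Finset.sum_nbij' (fun t => 1 + (t : ZMod l)) (fun y => (y - 1).val) ?_ ?_ ?_ ?_ ?_
  · intro t _
    exact Finset.mem_univ _
  · intro y _
    exact Finset.mem_range.2 (ZMod.val_lt _)
  · intro t ht
    rw [add_sub_cancel_left, ZMod.val_cast_of_lt (Finset.mem_range.1 ht)]
  · intro y _
    rw [ZMod.natCast_zmod_val, add_sub_cancel]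
  · intro t _
    rfl

theorem sum_range_zmod0 [NeZero l] {M : Type} [AddCommMonoid M] (f : ZMod l → M) :
    ∑ t ∈ Finset.range l, f (t : ZMod l) = ∑ y, f y := by
  refine Finset.sum_nbij' (fun t => (t : ZMod l)) (fun y => y.val) ?_ ?_ ?_ ?_ ?_
  · intro t _
    exact Finset.mem_univ _
  · intro y _
    exact Finset.mem_range.2 (ZMod.val_lt _)
  · intro t ht
    exact ZMod.val_cast_of_lt (Finset.mem_range.1 ht)
  · intro y _
    exact ZMod.natCast_zmod_val y
  · intro t _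
    rfl

/-- the total deviation of the plaquettes `(3, 2)` of a fibre -/
theorem sum_fr_le [NeZero l] (k : ℕ) (U : Link n L l → SU N) (u : ZMod n × ZMod L) :
    ∑ t ∈ Finset.range l, fr k U (u.1, u.2, 0, 1 + (t : ZMod l)) 3 ≤ l * Real.sqrt (Te k U u) := by
  have h1 : ∑ t ∈ Finset.range l, fr k U (u.1, u.2, 0, 1 + (t : ZMod l)) 3 =
      ∑ y : ZMod l × ZMod l, ‖Fd k U (u.1, u.2, y) 3‖ := by
    have h2 : ∀ y : ZMod l, fr k U (u.1, u.2, 0, y) 3 = ∑ s : ZMod l, ‖Fd k U (u.1, u.2, s, y) 3‖ := by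
      intro y
      unfold fr
      rw [← sum_range_zmod0 (fun s : ZMod l => ‖Fd k U (u.1, u.2, s, y) 3‖)]
      refine Finset.sum_congr rfl fun t _ => ?_
      rw [add_dir2]
      simp only [zero_add]
    rw [sum_range_zmod (fun y : ZMod l => fr k U (u.1, u.2, 0, y) 3), Fintype.sum_prod_type_right]
    exact Finset.sum_congr rfl fun y _ => h2 y
  rw [h1]
  have h3 := sq_sum_le_card_mul_sum_sq (s := (Finset.univ : Finset (ZMod l × ZMod l)))
    (f := fun y => ‖Fd k U (u.1, u.2, y) 3‖)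
  have h4 : ((Finset.univ : Finset (ZMod l × ZMod l)).card : ℝ) = (l : ℝ) ^ 2 := by
    rw [Finset.card_univ, Fintype.card_prod, ZMod.card]
    push_cast
    ring
  have h5 : ∑ y : ZMod l × ZMod l, ‖Fd k U (u.1, u.2, y) 3‖ ^ 2 ≤ Te k U u := by
    unfold Te
    refine Finset.sum_le_sum fun y _ => ?_
    exact Finset.single_le_sum (f := fun j => ‖Fd k U (u.1, u.2, y) j‖ ^ 2) (s := D3)
      (fun j _ => sq_nonneg _) (by simp [D3])
  have h6 : 0 ≤ Te k U u := by
    unfold Te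
    exact Finset.sum_nonneg fun y _ => Finset.sum_nonneg fun j _ => sq_nonneg _
  refine abs_le_of_sq_le_sq' ?_ (by positivity) |>.2
  rw [mul_pow, Real.sq_sqrt h6]
  rw [h4] at h3
  exact h3.trans (mul_le_mul_of_nonneg_left h5 (by positivity))

/-- the phases -/
noncomputable def E (l : ℕ) (m : ℝ) (t : ℕ) : ℂ := Complex.exp (Complex.I * (m * t / l))

theorem E_norm (l : ℕ) (m : ℝ) (t : ℕ) : ‖E l m t‖ = 1 := by
  have h : Complex.I * (m * t / l) = ((m * t / l : ℝ) : ℂ) * Complex.I := by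
    push_cast
    ring
  rw [E, h, Complex.norm_exp_ofReal_mul_I]

theorem E_mul (l : ℕ) (m m' : ℝ) (t : ℕ) : E l m t * E l m' t = E l (m + m') t := by
  rw [E, E, E, ← Complex.exp_add]
  congr 1
  push_cast
  ring

theorem E_conj (l : ℕ) (m : ℝ) (t : ℕ) : conj (E l m t) = E l (-m) t := by
  rw [E, E, ← Complex.exp_conj]
  congr 1
  rw [map_mul, map_div₀, map_mul, Complex.conj_I, Complex.conj_ofReal, Complex.conj_natCast,
    Complex.conj_natCast]
  push_cast
  ring

theorem av_E [NeZero l] (k : ℕ) (j : ℕ × ℤ) (g : ZMod n × ZMod L → ℂ) (u : ZMod n × ZMod L)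
    {t : ℕ} (ht : t < l) :
    av N k j g (u.1, u.2, 0, 1 + (t : ZMod l)) = g u * E l (mass N k j) t := by
  unfold av ph E
  simp only [add_sub_cancel_left, ZMod.val_cast_of_lt ht]

/-- the quantisation of the masses -/
theorem mass_ge [NeZero N] (k : ℕ) (j : ℕ × ℤ) (h : 0 < mass N k j) :
    2 * Real.pi / N ≤ mass N k j := by
  have hN : (0 : ℝ) < N := by exact_mod_cast Nat.pos_of_neZero N
  have h1 : mass N k j = 2 * Real.pi / N * ((j.2 * N + k * j.1 : ℤ) : ℝ) := by
    unfold mass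
    push_cast
    field_simp
  rw [h1] at h ⊢
  have h2 : (0 : ℝ) < 2 * Real.pi / N := by positivity
  have h3 : (0 : ℝ) < ((j.2 * N + k * j.1 : ℤ) : ℝ) := (pos_iff_pos_of_mul_pos h).1 h2
  have h4 : (1 : ℝ) ≤ ((j.2 * N + k * j.1 : ℤ) : ℝ) := by
    exact_mod_cast Int.cast_pos.1 h3
  nlinarith

theorem exp_mass (N k : ℕ) [NeZero N] (i j : ℕ × ℤ) :
    Complex.exp (Complex.I * ((mass N k i + mass N k j : ℝ) : ℂ)) = om N k ^ (i.1 + j.1) := by
  have hN : (N : ℂ) ≠ 0 := Nat.cast_ne_zero.2 (NeZero.ne N)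
  have h1 : Complex.I * ((mass N k i + mass N k j : ℝ) : ℂ) =
      ((i.1 + j.1 : ℕ) : ℂ) * (2 * Real.pi * Complex.I * (k / N)) +
        ((i.2 + j.2 : ℤ) : ℂ) * (2 * Real.pi * Complex.I) := by
    unfold mass
    push_cast
    ring
  rw [h1, Complex.exp_add, Complex.exp_int_mul_two_pi_mul_I, mul_one, om, ← Complex.exp_nat_mul]

/-- the geometric sum of two different modes of the same winding -/
theorem geom_zero [NeZero N] [NeZero l] (k : ℕ) (i j : ℕ × ℤ) (hij : i.1 = j.1) (hne : i ≠ j)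
    (hi0 : 0 < mass N k i) (hi : mass N k i ≤ Real.pi / 2 * l) (hj0 : 0 < mass N k j)
    (hj : mass N k j ≤ Real.pi / 2 * l) :
    ∑ t ∈ Finset.range l, E l (mass N k i + -mass N k j) t = 0 := by
  have hl : (0 : ℝ) < l := by exact_mod_cast Nat.pos_of_neZero l
  have hlc : (l : ℂ) ≠ 0 := Nat.cast_ne_zero.2 (NeZero.ne l)
  have hd : mass N k i + -mass N k j = 2 * Real.pi * ((i.2 - j.2 : ℤ) : ℝ) := by
    unfold mass
    rw [hij]
    push_cast
    ring
  set d : ℤ := i.2 - j.2 with hdd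
  have hd0 : d ≠ 0 := by
    intro h0
    apply hne
    exact Prod.ext hij (by omega)
  have habs : |(d : ℝ)| < l := by
    have h1 : |mass N k i + -mass N k j| ≤ Real.pi / 2 * l := by
      rw [abs_le]
      constructor <;> linarith
    rw [hd, abs_mul, abs_of_pos (by positivity : (0 : ℝ) < 2 * Real.pi)] at h1
    have hpi := Real.pi_pos
    nlinarith [abs_nonneg (d : ℝ)]
  set z : ℂ := Complex.exp (2 * Real.pi * Complex.I * (d / l)) with hz
  have hterm : ∀ t ∈ Finset.range l, E l (mass N k i + -mass N k j) t = z ^ t := by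
    intro t _
    rw [E, hd, hz, ← Complex.exp_nat_mul]
    congr 1
    push_cast
    ring
  rw [Finset.sum_congr rfl hterm]
  have hz1 : z ≠ 1 := by
    intro h1
    rw [hz, Complex.exp_eq_one_iff] at h1
    obtain ⟨m, hm⟩ := h1
    have h2 : (d : ℂ) = m * l := by
      have h3 : (2 * Real.pi * Complex.I : ℂ) ≠ 0 := Complex.two_pi_I_ne_zero
      have h4 : (2 * Real.pi * Complex.I : ℂ) * (d / l) = (2 * Real.pi * Complex.I : ℂ) * m := by
        rw [hm]
        ring
      have h5 := mul_left_cancel₀ h3 h4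
      field_simp at h5
      rw [h5, mul_comm]
    have h3 : d = m * l := by exact_mod_cast h2
    have hm0 : m ≠ 0 := by
      rintro rfl
      exact hd0 (by simpa using h3)
    have h4 : (1 : ℝ) ≤ |(m : ℝ)| := by
      have := Int.one_le_abs hm0
      exact_mod_cast this
    have h5 : |(d : ℝ)| = |(m : ℝ)| * l := by
      rw [h3]
      push_cast
      rw [abs_mul, abs_of_pos hl]
    rw [h5] at habs
    nlinarith
  have hzl : z ^ l = 1 := by
    rw [hz, ← Complex.exp_nat_mul]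
    have h1 : (l : ℂ) * (2 * Real.pi * Complex.I * (d / l)) = (d : ℤ) * (2 * Real.pi * Complex.I) := by
      field_simp
    rw [h1, Complex.exp_int_mul_two_pi_mul_I]
  have h6 := geom_sum_mul z l
  rw [hzl, sub_self] at h6
  exact (mul_eq_zero.1 h6).resolve_right (sub_ne_zero.2 hz1)

theorem Zm_norm [NeZero l] {U : Link n L l → SU N} {x : Site n L l} {B : ℝ} {i j : ℕ}
    (hB : ∀ c, 1 ≤ c → c < N → ‖W c U x‖ ≤ B) (hi : i < N) (hj : j < N) (hij : i ≠ j) :
    ‖Zm i j U x‖ ≤ B := by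
  unfold Zm
  rcases lt_or_gt_of_ne hij with h | h
  · have h1 : (Run7.h630.MQ.lp U x ^ j)⁻¹ * Run7.h630.MQ.lp U x ^ i =
        (Run7.h630.MQ.lp U x ^ (j - i))⁻¹ := by
      rw [← Nat.sub_add_cancel h.le, pow_add, Nat.add_sub_cancel]
      group
    rw [h1, trace_inv, RCLike.norm_conj]
    exact hB (j - i) (by omega) (by omega)
  · have h1 : (Run7.h630.MQ.lp U x ^ j)⁻¹ * Run7.h630.MQ.lp U x ^ i =
        Run7.h630.MQ.lp U x ^ (i - j) := by
      rw [← Nat.sub_add_cancel h.le, pow_add, Nat.add_sub_cancel]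
      group
    rw [h1]
    exact hB (i - j) (by omega) (by omega)

theorem Zm_self (i : ℕ) (U : Link n L l → SU N) (x : Site n L l) : Zm i i U x = N := by
  unfold Zm
  rw [inv_mul_cancel]
  simp

/-- the lower bound of the first difference of the phases -/
theorem exp_ge [NeZero N] [NeZero l] (k : ℕ) (i j : ℕ × ℤ) (hi0 : 0 < mass N k i)
    (hi : mass N k i ≤ Real.pi / 2 * l) (hj0 : 0 < mass N k j) (hj : mass N k j ≤ Real.pi / 2 * l) :
    8 / (N * l : ℝ) ≤
      ‖Complex.exp (Complex.I * (((mass N k i + mass N k j) / l : ℝ) : ℂ)) - 1‖ := by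
  have hl : (0 : ℝ) < l := by exact_mod_cast Nat.pos_of_neZero l
  have hN : (0 : ℝ) < N := by exact_mod_cast Nat.pos_of_neZero N
  have hpi := Real.pi_pos
  set q : ℝ := (mass N k i + mass N k j) / l with hq
  have hq0 : 0 < q := by positivity
  have hq1 : q ≤ Real.pi := by
    rw [hq, div_le_iff₀ hl]
    linarith
  have h1 := Real.mul_le_sin (x := q / 2) (by positivity) (by linarith)
  rw [Complex.norm_exp_I_mul_ofReal_sub_one, Real.norm_eq_abs]
  refine le_trans ?_ (le_abs_self _)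
  have h2 : 4 * Real.pi / (N * l) ≤ q := by
    rw [hq, div_le_div_iff₀ (by positivity) hl]
    have h3 := mass_ge (N := N) k i hi0
    have h4 := mass_ge (N := N) k j hj0
    rw [div_le_iff₀ hN] at h3 h4
    nlinarith
  have h3 : 8 / (N * l : ℝ) = 2 * (2 / Real.pi * (4 * Real.pi / (N * l) / 2)) := by
    field_simp
    ring
  rw [h3]
  have h4 : 2 / Real.pi * (4 * Real.pi / (N * l) / 2) ≤ 2 / Real.pi * (q / 2) := by
    gcongr
  linarith

theorem t_B : S_T4 → S_T5 → S_B := by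
  intro h4 h5 N n L l k _ _ _ _ hco U i j hi1 hiN hj1 hjN hmi0 hmi hmj0 hmj g u
  have hl : (0 : ℝ) < l := by exact_mod_cast Nat.pos_of_neZero l
  have hN : (0 : ℝ) < N := by exact_mod_cast Nat.pos_of_neZero N
  have hNc : (N : ℂ) ≠ 0 := Nat.cast_ne_zero.2 (NeZero.ne N)
  have hlc : (l : ℂ) ≠ 0 := Nat.cast_ne_zero.2 (NeZero.ne l)
  set Φ : ℝ := ∑ t ∈ Finset.range l, fr k U (u.1, u.2, 0, 1 + (t : ZMod l)) 3 with hΦd
  set S : ℝ := Real.sqrt (Te k U u) with hS
  set G : ℝ := ‖g u‖ with hG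
  have hS0 : 0 ≤ S := Real.sqrt_nonneg _
  have hG0 : 0 ≤ G := norm_nonneg _
  have hΦ : Φ ≤ l * S := sum_fr_le k U u
  have hΦ0 : 0 ≤ Φ := Finset.sum_nonneg fun t _ => Finset.sum_nonneg fun s _ => norm_nonneg _
  have hW : ∀ (t : ℕ) (c : ℕ), 1 ≤ c → c < N →
      ‖W c U (u.1, u.2, 0, 1 + (t : ZMod l))‖ ≤ (N : ℝ) ^ 3 * Φ := fun t c h1 h2 =>
    h5 N n L l k hco U (u.1, u.2, 0, 1 + (t : ZMod l)) c h1 h2
  have hi2 : (i.1 : ℝ) ≤ N := by exact_mod_cast hiN.le
  have hj2 : (j.1 : ℝ) ≤ N := by exact_mod_cast hjN.le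
  have hN2 : (2 : ℝ) ≤ N := by exact_mod_cast (by omega : 2 ≤ N)
  have hi0 : (0 : ℝ) ≤ i.1 := Nat.cast_nonneg _
  have hj0 : (0 : ℝ) ≤ j.1 := Nat.cast_nonneg _
  set A1 : ℂ := ∑ t ∈ Finset.range l, E l (mass N k i + mass N k j) t *
    W (i.1 + j.1) U (u.1, u.2, 0, 1 + (t : ZMod l)) with hA1
  set A2 : ℂ := ∑ t ∈ Finset.range l, E l (mass N k i + -mass N k j) t *
    Zm i.1 j.1 U (u.1, u.2, 0, 1 + (t : ZMod l)) with hA2
  set A3 : ℂ := ∑ t ∈ Finset.range l, E l (mass N k i) t *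
    ((g u * E l (mass N k j) t * W j.1 U (u.1, u.2, 0, 1 + (t : ZMod l)) -
      conj (g u * E l (mass N k j) t * W j.1 U (u.1, u.2, 0, 1 + (t : ZMod l)))) *
      W i.1 U (u.1, u.2, 0, 1 + (t : ZMod l))) with hA3
  have hd : dmd k U (Yv j.1 (av N k j g) U) i u =
      (i.1 * l / 2 : ℂ) * g u * A1 - (i.1 * l / 2 : ℂ) * conj (g u) * A2 -
        (i.1 * l / (2 * N) : ℂ) * A3 := by
    unfold dmd
    rw [hA1, hA2, hA3, Finset.mul_sum, Finset.mul_sum, Finset.mul_sum, ← Finset.sum_sub_distrib,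
      ← Finset.sum_sub_distrib]
    refine Finset.sum_congr rfl fun t ht => ?_
    have ht' := Finset.mem_range.1 ht
    rw [dW_Yv, av_E k j g u ht', ← E_mul, ← E_mul, ← E_conj, map_mul]
    change E l (mass N k i) t * _ = _
    ring
  have hb1 : ‖A1‖ ≤ (i.1 + j.1) * N ^ 2 * l / 8 * Φ := by
    have h1 := h4 N n L l k U u (i.1 + j.1) ((mass N k i + mass N k j) / l) (by
      rw [← exp_mass]
      congr 1
      push_cast
      field_simp)
    have h2 : ∑ t ∈ Finset.range l, Complex.exp (Complex.I *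
        ((((mass N k i + mass N k j) / l : ℝ) : ℂ) * t)) *
        W (i.1 + j.1) U (u.1, u.2, 0, 1 + (t : ZMod l)) = A1 := by
      refine Finset.sum_congr rfl fun t _ => ?_
      rw [E]
      congr 3
      push_cast
      ring
    rw [h2] at h1
    have h3 := exp_ge (N := N) (l := l) k i j hmi0 hmi hmj0 hmj
    have h6 : 8 / (N * l : ℝ) * ‖A1‖ ≤ ((i.1 + j.1 : ℕ) : ℝ) * N * Φ :=
      (mul_le_mul_of_nonneg_right h3 (norm_nonneg _)).trans h1
    have h7 : ‖A1‖ = (N * l / 8) * (8 / (N * l : ℝ) * ‖A1‖) := by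
      field_simp
    rw [h7]
    refine (mul_le_mul_of_nonneg_left h6 (by positivity)).trans (le_of_eq ?_)
    push_cast
    ring
  have hb3 : ‖A3‖ ≤ l * (2 * G * N * (N ^ 3 * Φ)) := by
    rw [hA3]
    refine (norm_sum_le _ _).trans ?_
    have h1 : ∀ t ∈ Finset.range l, ‖E l (mass N k i) t *
        ((g u * E l (mass N k j) t * W j.1 U (u.1, u.2, 0, 1 + (t : ZMod l)) -
          conj (g u * E l (mass N k j) t * W j.1 U (u.1, u.2, 0, 1 + (t : ZMod l)))) *
          W i.1 U (u.1, u.2, 0, 1 + (t : ZMod l)))‖ ≤ 2 * G * N * (N ^ 3 * Φ) := by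
      intro t _
      have h2 : ‖g u * E l (mass N k j) t * W j.1 U (u.1, u.2, 0, 1 + (t : ZMod l))‖ ≤ G * N := by
        rw [norm_mul, norm_mul, E_norm, mul_one]
        exact mul_le_mul_of_nonneg_left (norm_W_le _ _ _) hG0
      rw [norm_mul, E_norm, one_mul, norm_mul]
      refine mul_le_mul ?_ (hW t i.1 hi1 hiN) (norm_nonneg _) (by positivity)
      refine (norm_sub_le _ _).trans ?_
      rw [RCLike.norm_conj]
      linarith
    refine (Finset.sum_le_sum h1).trans ?_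
    rw [Finset.sum_const, Finset.card_range, nsmul_eq_mul]
  have hmain1 : ‖(i.1 * l / 2 : ℂ) * g u * A1‖ ≤ N ^ 4 * l ^ 3 * G * S / 8 := by
    rw [norm_mul, norm_mul, norm_div, norm_mul, Complex.norm_natCast, Complex.norm_natCast,
      Complex.norm_ofNat]
    have h1 : ‖A1‖ ≤ (N + N) * N ^ 2 * l / 8 * (l * S) := hb1.trans (by gcongr)
    calc (i.1 : ℝ) * l / 2 * G * ‖A1‖ ≤ N * l / 2 * G * ((N + N) * N ^ 2 * l / 8 * (l * S)) := by
          gcongr
      _ = N ^ 4 * l ^ 3 * G * S / 8 := by ring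
  have hmain3 : ‖(i.1 * l / (2 * N) : ℂ) * A3‖ ≤ N ^ 4 * l ^ 3 * G * S := by
    rw [norm_mul, norm_div, norm_mul, norm_mul, Complex.norm_natCast, Complex.norm_natCast,
      Complex.norm_natCast, Complex.norm_ofNat]
    calc (i.1 : ℝ) * l / (2 * N) * ‖A3‖ ≤ N * l / (2 * N) * (l * (2 * G * N * (N ^ 3 * (l * S)))) := by
          gcongr
          refine hb3.trans ?_
          gcongr
      _ = N ^ 4 * l ^ 3 * G * S := by
          field_simp
  have hmain2 : ‖-((i.1 * l / 2 : ℂ) * conj (g u) * A2) +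
      (if i = j then (1 / 2 * N * j.1 * l ^ 2 : ℂ) * conj (g u) else 0)‖ ≤
        N ^ 4 * l ^ 3 * G * S / 2 := by
    by_cases hc : i.1 = j.1
    · have hZ : A2 = N * ∑ t ∈ Finset.range l, E l (mass N k i + -mass N k j) t := by
        rw [hA2, Finset.mul_sum]
        refine Finset.sum_congr rfl fun t _ => ?_
        rw [hc, Zm_self, mul_comm]
      have hzero : -((i.1 * l / 2 : ℂ) * conj (g u) * A2) +
          (if i = j then (1 / 2 * N * j.1 * l ^ 2 : ℂ) * conj (g u) else 0) = 0 := by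
        by_cases hij : i = j
        · rw [if_pos hij, hZ]
          have h1 : ∑ t ∈ Finset.range l, E l (mass N k i + -mass N k j) t = l := by
            have h2 : ∀ t ∈ Finset.range l, E l (mass N k i + -mass N k j) t = 1 := by
              intro t _
              rw [hij, E, add_neg_cancel]
              simp
            rw [Finset.sum_congr rfl h2]
            simp
          rw [h1, hc]
          ring
        · rw [if_neg hij, hZ, geom_zero k i j hc hij hmi0 hmi hmj0 hmj]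
          ring
      rw [hzero, norm_zero]
      positivity
    · have hij : i ≠ j := fun h => hc (congrArg Prod.fst h)
      rw [if_neg hij, add_zero, norm_neg, norm_mul, norm_mul, norm_div, norm_mul,
        Complex.norm_natCast, Complex.norm_natCast, Complex.norm_ofNat, RCLike.norm_conj]
      have h1 : ‖A2‖ ≤ l * (N ^ 3 * Φ) := by
        rw [hA2]
        refine (norm_sum_le _ _).trans ?_
        have h2 : ∀ t ∈ Finset.range l, ‖E l (mass N k i + -mass N k j) t *
            Zm i.1 j.1 U (u.1, u.2, 0, 1 + (t : ZMod l))‖ ≤ N ^ 3 * Φ := by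
          intro t _
          rw [norm_mul, E_norm, one_mul]
          exact Zm_norm (hW t) hiN hjN hc
        refine (Finset.sum_le_sum h2).trans ?_
        rw [Finset.sum_const, Finset.card_range, nsmul_eq_mul]
      calc (i.1 : ℝ) * l / 2 * G * ‖A2‖ ≤ N * l / 2 * G * (l * (N ^ 3 * (l * S))) := by
            gcongr
            refine h1.trans ?_
            gcongr
        _ = N ^ 4 * l ^ 3 * G * S / 2 := by ring
  rw [hd]
  have hre : (i.1 * l / 2 : ℂ) * g u * A1 - (i.1 * l / 2 : ℂ) * conj (g u) * A2 -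
      (i.1 * l / (2 * N) : ℂ) * A3 +
      (if i = j then (1 / 2 * N * j.1 * l ^ 2 : ℂ) * conj (g u) else 0) =
      (i.1 * l / 2 : ℂ) * g u * A1 + (-((i.1 * l / 2 : ℂ) * conj (g u) * A2) +
      (if i = j then (1 / 2 * N * j.1 * l ^ 2 : ℂ) * conj (g u) else 0)) -
        (i.1 * l / (2 * N) : ℂ) * A3 := by ring
  rw [hre]
  refine (norm_sub_le _ _).trans ?_
  refine (add_le_add (norm_add_le _ _) le_rfl).trans ?_
  have hfin : N ^ 4 * l ^ 3 * G * S / 8 + N ^ 4 * l ^ 3 * G * S / 2 + N ^ 4 * l ^ 3 * G * S ≤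
      N ^ 5 * l ^ 3 * G * S := by
    have h1 : (0 : ℝ) ≤ N ^ 4 * l ^ 3 * G * S := by positivity
    have h2 : (N : ℝ) ^ 5 * l ^ 3 * G * S = N * (N ^ 4 * l ^ 3 * G * S) := by ring
    rw [h2]
    nlinarith
  linarith

end Run7.h370.MQ
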