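import Pool.Agent.Run7.h370.MQ.B

/-!
Matrix lemmas for piece A.
-/

set_option autoImplicit false

open Matrix
open scoped Matrix.Norms.Frobenius ComplexConjugate

namespace Run7.h370.MQ

open Run7.h4.YM Run7.h630.ML Run7.h630.MQ

variable {N n L l : ℕ}

theorem norm_sq_eq (A : Mt N) : ‖A‖ ^ 2 = ∑ i, ∑ j, ‖A i j‖ ^ 2 := by
  rw [frobenius_norm_def, ← Real.sqrt_eq_rpow, Real.sq_sqrt]
  · simp only [Real.rpow_ofNat]
  · exact Finset.sum_nonneg fun i _ => Finset.sum_nonneg fun j _ => by positivity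

theorem norm_entry_le (A : Mt N) (i j : Fin N) : ‖A i j‖ ≤ ‖A‖ := by
  refine abs_le_of_sq_le_sq' ?_ (norm_nonneg _) |>.2
  rw [norm_sq_eq]
  refine le_trans ?_ (Finset.single_le_sum (f := fun i => ∑ j, ‖A i j‖ ^ 2)
    (fun i _ => Finset.sum_nonneg fun j _ => sq_nonneg _) (Finset.mem_univ i))
  exact Finset.single_le_sum (f := fun j => ‖A i j‖ ^ 2) (fun j _ => sq_nonneg _)
    (Finset.mem_univ j)

theorem norm_tr_le (A : Mt N) : ‖trace A‖ ≤ N * ‖A‖ := by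
  unfold trace
  refine (norm_sum_le _ _).trans ?_
  refine (Finset.sum_le_sum fun i _ => norm_entry_le A i i).trans ?_
  rw [Finset.sum_const, Finset.card_univ, Fintype.card_fin, nsmul_eq_mul]

theorem norm_tr_mul_le (A B : Mt N) : ‖trace (A * B)‖ ≤ N * (‖A‖ * ‖B‖) :=
  (norm_tr_le _).trans (mul_le_mul_of_nonneg_left (frobenius_norm_mul A B) (Nat.cast_nonneg _))

theorem norm_SU_le (g : SU N) : ‖g.1‖ ≤ N := by
  refine abs_le_of_sq_le_sq' ?_ (Nat.cast_nonneg _) |>.2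
  rw [norm_sq_eq]
  have h1 : ∀ i ∈ (Finset.univ : Finset (Fin N)), ∑ j, ‖g.1 i j‖ ^ 2 ≤ (N : ℝ) := by
    intro i _
    have h2 : ∀ j ∈ (Finset.univ : Finset (Fin N)), ‖g.1 i j‖ ^ 2 ≤ (1 : ℝ) := by
      intro j _
      have := entry_norm_bound_of_unitary (mem_specialUnitaryGroup_iff.1 g.2).1 i j
      nlinarith [norm_nonneg (g.1 i j)]
    refine (Finset.sum_le_sum h2).trans ?_
    simp
  refine (Finset.sum_le_sum h1).trans ?_
  rw [Finset.sum_const, Finset.card_univ, Fintype.card_fin, nsmul_eq_mul, sq]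

/-- the scalar part of the projection -/
noncomputable def sc (A : Mt N) : ℂ := trace (A - Aᴴ) / (2 * N)

theorem pr_eq (A : Mt N) : pr A = (1 / 2 : ℂ) • (A - Aᴴ) - sc A • (1 : Mt N) := rfl

theorem pr_add (A B : Mt N) : pr (A + B) = pr A + pr B := by
  rw [pr_eq, pr_eq, pr_eq, sc, sc, sc, conjTranspose_add, add_sub_add_comm, trace_add, add_div,
    add_smul, smul_add]
  abel

theorem pr_sub (A B : Mt N) : pr (A - B) = pr A - pr B := by
  rw [eq_sub_iff_add_eq, ← pr_add, sub_add_cancel]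

theorem trace_pr [NeZero N] (A : Mt N) : trace (pr A) = 0 := by
  have hN : (N : ℂ) ≠ 0 := Nat.cast_ne_zero.2 (NeZero.ne N)
  rw [pr_eq, trace_sub, trace_smul, trace_smul, trace_one, Fintype.card_fin, sc, smul_eq_mul,
    smul_eq_mul]
  field_simp
  ring

theorem star_mul_self (g : SU N) : g.1ᴴ * g.1 = 1 := congrArg Subtype.val (inv_mul_cancel g)

theorem mul_star_self' (g : SU N) : g.1 * g.1ᴴ = 1 := congrArg Subtype.val (mul_inv_cancel g)

theorem trace_cj (g : SU N) (A : Mt N) : trace (g.1 * A * g.1ᴴ) = trace A := by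
  rw [trace_mul_cycle, star_mul_self, one_mul]

theorem pr_cj (g : SU N) (A : Mt N) : pr (g.1 * A * g.1ᴴ) = g.1 * pr A * g.1ᴴ := by
  have h1 : (g.1 * A * g.1ᴴ)ᴴ = g.1 * Aᴴ * g.1ᴴ := by
    rw [conjTranspose_mul, conjTranspose_mul, conjTranspose_conjTranspose, mul_assoc]
  have h2 : g.1 * A * g.1ᴴ - g.1 * Aᴴ * g.1ᴴ = g.1 * (A - Aᴴ) * g.1ᴴ := by
    rw [mul_sub, sub_mul]
  have h3 : sc (g.1 * A * g.1ᴴ) = sc A := by
    rw [sc, sc, h1, h2, trace_cj]
  have h4 : g.1 * ((1 / 2 : ℂ) • (A - Aᴴ) - sc A • (1 : Mt N)) * g.1ᴴ =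
      (1 / 2 : ℂ) • (g.1 * (A - Aᴴ) * g.1ᴴ) - sc A • (1 : Mt N) := by
    rw [Matrix.mul_sub, Matrix.sub_mul, Matrix.mul_smul, Matrix.smul_mul, Matrix.mul_smul,
      Matrix.smul_mul, mul_one, mul_star_self']
  rw [pr_eq, pr_eq, h1, h2, h3, h4]

theorem norm_sc_le [NeZero N] (A : Mt N) : ‖sc A‖ ≤ ‖trace A‖ / N := by
  have hN : (0 : ℝ) < N := by exact_mod_cast Nat.pos_of_neZero N
  have h1 : trace (A - Aᴴ) = trace A - conj (trace A) := by
    rw [trace_sub, trace_conjTranspose]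
    rfl
  rw [sc, h1, norm_div, norm_mul, Complex.norm_ofNat, Complex.norm_natCast, div_le_div_iff₀
    (by positivity) hN]
  have h2 := norm_sub_le (trace A) (conj (trace A))
  rw [RCLike.norm_conj] at h2
  nlinarith

theorem tr_pr_le [NeZero N] (F D : Mt N) : |(trace (F * pr D)).re| ≤ 2 * N * (‖F‖ * ‖D‖) := by
  have hN : (0 : ℝ) < N := by exact_mod_cast Nat.pos_of_neZero N
  have h1 : trace (F * pr D) = 1 / 2 * trace (F * D) - 1 / 2 * trace (F * Dᴴ) - sc D * trace F := by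
    rw [pr_eq, mul_sub, mul_smul_comm, mul_smul_comm, mul_one, mul_sub, trace_sub, trace_smul,
      trace_smul, trace_sub, smul_eq_mul, smul_eq_mul]
    ring
  have h2 := norm_tr_mul_le F D
  have h3 := norm_tr_mul_le F Dᴴ
  rw [frobenius_norm_conjTranspose] at h3
  have h4 : ‖sc D * trace F‖ ≤ N * (‖F‖ * ‖D‖) := by
    rw [norm_mul]
    have h5 : ‖sc D‖ ≤ ‖D‖ := by
      refine (norm_sc_le D).trans ?_
      rw [div_le_iff₀ hN, mul_comm]
      exact norm_tr_le D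
    calc ‖sc D‖ * ‖trace F‖ ≤ ‖D‖ * (N * ‖F‖) :=
          mul_le_mul h5 (norm_tr_le F) (norm_nonneg _) (norm_nonneg _)
      _ = N * (‖F‖ * ‖D‖) := by ring
  refine (Complex.abs_re_le_norm _).trans ?_
  rw [h1]
  refine (norm_sub_le _ _).trans ?_
  have h6 : ‖1 / 2 * trace (F * D) - 1 / 2 * trace (F * Dᴴ)‖ ≤ N * (‖F‖ * ‖D‖) := by
    refine (norm_sub_le _ _).trans ?_
    rw [norm_mul, norm_mul, norm_div, norm_one, Complex.norm_ofNat]
    linarith
  linarith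

theorem tr_pr_unit [NeZero N] (V : Mt N) (hV : V * Vᴴ = 1) (b : ℂ) (M : SU N) :
    |(trace ((V - 1) * pr (b • M.1))).re - (b * trace ((V - 1) * M.1)).re| ≤
      N ^ 2 / 2 * ‖V - 1‖ ^ 2 * ‖b‖ + ‖b‖ * ‖trace M.1‖ * ‖V - 1‖ := by
  have hN : (0 : ℝ) < N := by exact_mod_cast Nat.pos_of_neZero N
  set F : Mt N := V - 1 with hF
  set B : Mt N := b • M.1 with hB
  have hFF : Fᴴ = -F - F * Fᴴ := by
    rw [hF, conjTranspose_sub, conjTranspose_one, sub_mul, mul_sub, hV, mul_one, one_mul]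
    abel
  have h1 : trace (F * pr B) = 1 / 2 * trace (F * B) - 1 / 2 * trace (F * Bᴴ) - sc B * trace F := by
    rw [pr_eq, mul_sub, mul_smul_comm, mul_smul_comm, mul_one, mul_sub, trace_sub, trace_smul,
      trace_smul, trace_sub, smul_eq_mul, smul_eq_mul]
    ring
  have h2 : (trace (F * Bᴴ)).re = -(trace (F * B)).re - (trace (F * Fᴴ * B)).re := by
    have h3 : trace (F * Bᴴ) = conj (trace (Fᴴ * B)) := by
      have h4 : F * Bᴴ = (B * Fᴴ)ᴴ := by
        rw [conjTranspose_mul, conjTranspose_conjTranspose]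
      rw [h4, trace_conjTranspose, trace_mul_comm]
      rfl
    rw [h3, Complex.conj_re, hFF, sub_mul, neg_mul, trace_sub, trace_neg, Complex.sub_re,
      Complex.neg_re]
    rw [← hFF]
  have h5 : (trace (F * pr B)).re - (trace (F * B)).re =
      1 / 2 * (trace (F * Fᴴ * B)).re - (sc B * trace F).re := by
    rw [h1, Complex.sub_re, Complex.sub_re]
    have h6 : ∀ z : ℂ, (1 / 2 * z).re = 1 / 2 * z.re := by
      intro z
      have : (1 / 2 : ℂ) = ((1 / 2 : ℝ) : ℂ) := by push_cast; rfl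
      rw [this, Complex.re_ofReal_mul]
    rw [h6, h6, h2]
    ring
  have h7 : b * trace (F * M.1) = trace (F * B) := by
    rw [hB, mul_smul_comm, trace_smul, smul_eq_mul]
  rw [h7, h5]
  have hBn : ‖B‖ ≤ ‖b‖ * N := by
    rw [hB, norm_smul]
    exact mul_le_mul_of_nonneg_left (norm_SU_le M) (norm_nonneg _)
  have h8 : |(trace (F * Fᴴ * B)).re| ≤ N ^ 2 * ‖F‖ ^ 2 * ‖b‖ := by
    refine (Complex.abs_re_le_norm _).trans ((norm_tr_mul_le _ _).trans ?_)
    have h9 : ‖F * Fᴴ‖ ≤ ‖F‖ * ‖F‖ := by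
      refine (frobenius_norm_mul _ _).trans ?_
      rw [frobenius_norm_conjTranspose]
    calc (N : ℝ) * (‖F * Fᴴ‖ * ‖B‖) ≤ N * (‖F‖ * ‖F‖ * (‖b‖ * N)) := by gcongr
      _ = N ^ 2 * ‖F‖ ^ 2 * ‖b‖ := by ring
  have h10 : |(sc B * trace F).re| ≤ ‖b‖ * ‖trace M.1‖ * ‖F‖ := by
    refine (Complex.abs_re_le_norm _).trans ?_
    rw [norm_mul]
    have h11 : ‖sc B‖ ≤ ‖b‖ * ‖trace M.1‖ / N := by
      refine (norm_sc_le B).trans ?_
      rw [hB, trace_smul, norm_smul]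
    calc ‖sc B‖ * ‖trace F‖ ≤ ‖b‖ * ‖trace M.1‖ / N * (N * ‖F‖) :=
          mul_le_mul h11 (norm_tr_le F) (norm_nonneg _) (by positivity)
      _ = ‖b‖ * ‖trace M.1‖ * ‖F‖ := by
          field_simp
  rw [abs_le] at h8 h10 ⊢
  constructor <;> nlinarith [h8.1, h8.2, h10.1, h10.2]

end Run7.h370.MQ
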